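import Pool.Agent.D0H34.KC.Stm3
import Pool.Agent.D0H70.KC.Prm

/-! Project KC, third round, module PRM3: choice of the primes and of the integers `a_i`. -/

set_option autoImplicit false

open Polynomial

namespace Pool.Agent.D0H89.KC

open Pool.Agent.D0H34.KC Pool.Agent.D0H70.KC

theorem split_fin {K : Type} [Field K] (P : K[X]) (n : ℕ) (hP : P.Monic) (hs : P.Splits) (hd : P.natDegree = n) :
    ∃ r : ℕ → K, P = ∏ i ∈ Finset.range n, (X - C (r i)) := by
  classical
  obtain ⟨L, hL⟩ : ∃ L : List K, (L : Multiset K) = P.roots := ⟨P.roots.toList, Multiset.coe_toList _⟩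
  have h1 : P = (L.map fun a => X - C a).prod := by
    have := hs.eq_prod_roots_of_monic hP
    rw [← hL] at this
    simpa using this
  have h2 : L.length = n := by
    have := hs.natDegree_eq_card_roots
    rw [← hL, Multiset.coe_card, hd] at this
    exact this.symm
  refine ⟨fun i => if h : i < L.length then L[i] else 0, ?_⟩
  rw [← h2, Finset.prod_range]
  conv_lhs => rw [h1, ← Fin.prod_univ_fun_getElem]
  refine Finset.prod_congr rfl fun i _ => ?_
  simp [i.2]

theorem lift_half (n k P : ℕ) [Fact P.Prime] (hkn : k ≤ n) (F : ℤ[X]) (r : ℕ → ZMod P)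
    (hF : F.map (Int.castRingHom (ZMod P)) = ∏ i ∈ Finset.range n, (X - C (r i))) (a : Fin k → ℤ)
    (ha : ∀ i : Fin k, ((a i : ℤ) : ZMod P) = r i) :
    ∃ g R : ℤ[X], g.Monic ∧ g.natDegree = n - k ∧ (∏ i, (X - C (a i))) * g = F + C (P : ℤ) * R := by
  classical
  choose b hb using fun i => ZMod.intCast_surjective (r i)
  let g : ℤ[X] := ∏ i ∈ Finset.Ico k n, (X - C (b i))
  have hz : ((∏ i, (X - C (a i))) * g - F).map (Int.castRingHom (ZMod P)) = 0 := by
    rw [Polynomial.map_sub, Polynomial.map_mul, Polynomial.map_prod, hF, Polynomial.map_prod, sub_eq_zero,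
      ← Finset.prod_range_mul_prod_Ico _ hkn, Finset.prod_range (n := k)]
    congr 1
    · refine Finset.prod_congr rfl fun i _ => ?_
      rw [Polynomial.map_sub, map_X, map_C, eq_intCast, ha]
    · refine Finset.prod_congr rfl fun i _ => ?_
      rw [Polynomial.map_sub, map_X, map_C, eq_intCast, hb]
  have hdv : C (P : ℤ) ∣ (∏ i, (X - C (a i))) * g - F := by
    rw [C_dvd_iff_dvd_coeff]
    intro i
    have := congrArg (fun q => q.coeff i) hz
    simp only [coeff_map, coeff_zero, eq_intCast] at this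
    exact (ZMod.intCast_zmod_eq_zero_iff_dvd _ _).1 this
  obtain ⟨R, hR⟩ := hdv
  refine ⟨g, R, monic_prod_of_monic _ _ fun i _ => monic_X_sub_C _, ?_, ?_⟩
  · rw [natDegree_finsetProd_X_sub_C_eq_card, Nat.card_Ico]
  · rw [← hR]; ring

theorem monic2 (n : ℕ) (hn : 3 ≤ n) (j : ℕ) (hj : j < n) :
    (X ^ n - X ^ j - 1 : ℤ[X]).Monic ∧ (X ^ n - X ^ j - 1 : ℤ[X]).natDegree = n := by
  have hlt : (X ^ j + 1 : ℤ[X]).degree < n := by
    refine lt_of_le_of_lt (degree_add_le _ _) (max_lt ?_ ?_)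
    · rw [degree_X_pow]; exact_mod_cast hj
    · rw [degree_one]; exact_mod_cast (by omega : 0 < n)
  have e : (X ^ n - X ^ j - 1 : ℤ[X]) = X ^ n - (X ^ j + 1) := by ring
  rw [e]
  have hm : (X ^ n - (X ^ j + 1) : ℤ[X]).Monic := monic_X_pow_sub hlt
  refine ⟨hm, ?_⟩
  refine natDegree_eq_of_degree_eq_some ?_
  rw [degree_sub_eq_left_of_degree_lt (by rw [degree_X_pow]; exact hlt), degree_X_pow]

/-- a prime modulo which the polynomial splits, with its roots -/
theorem prime_roots (hS : S_SPL) (n j B : ℕ) (hn : 3 ≤ n) (hj : j < n) :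
    ∃ p : ℕ, p.Prime ∧ B < p ∧ ∃ r : ℕ → ZMod p,
      (X ^ n - X ^ j - 1 : ℤ[X]).map (Int.castRingHom (ZMod p)) = ∏ i ∈ Finset.range n, (X - C (r i)) := by
  obtain ⟨hm, hd⟩ := monic2 n hn j hj
  obtain ⟨p, hp, hB, hs⟩ := hS _ B hm
  have : Fact p.Prime := ⟨hp⟩
  obtain ⟨r, hr⟩ := split_fin _ n (hm.map _) hs (by rw [hm.natDegree_map, hd])
  exact ⟨p, hp, hB, r, hr⟩

/-- the moduli -/
def Mo {k : ℕ} (p p₂ p₃ : ℕ) (q : Fin k → ℕ) : Option (Option (Option (Fin k))) → ℕ
  | none => p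
  | some none => p₂
  | some (some none) => p₃
  | some (some (some i)) => q i

theorem t_PRM3 (hS : S_SPL) : S_PRM3 := by
  classical
  intro n k m hm hkn hn
  obtain ⟨p, hpp, hpn, hp1⟩ := Nat.exists_prime_gt_modEq_one (k := n) n (by omega)
  have : Fact p.Prime := ⟨hpp⟩
  obtain ⟨p₂, hp2, hB2, r₂, hr₂⟩ := prime_roots hS n (n - 1) p hn (by omega)
  have : Fact p₂.Prime := ⟨hp2⟩
  obtain ⟨p₃, hp3, hB3, r₃, hr₃⟩ := prime_roots hS n 2 p₂ hn (by omega)
  have : Fact p₃.Prime := ⟨hp3⟩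
  obtain ⟨q, hqinj, hq⟩ := primes m k p₃ (by omega)
  have : ∀ i, Fact (q i).Prime := fun i => ⟨(hq i).1⟩
  obtain ⟨ζ, hζ⟩ := root p n hp1
  choose ρ hρ using fun i => IsCyclic.exists_generator (α := (ZMod (q i))ˣ)
  have hqB : ∀ i, p₃ < q i := fun i => (hq i).2.1
  have hM : Pairwise (Function.onFun Nat.Coprime (Mo p p₂ p₃ q)) := by
    intro i j hij
    rcases i with _ | _ | _ | i <;> rcases j with _ | _ | _ | j
    · exact absurd rfl hij
    · exact (Nat.coprime_primes hpp hp2).2 (by omega)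
    · exact (Nat.coprime_primes hpp hp3).2 (by omega)
    · exact (Nat.coprime_primes hpp (hq j).1).2 (by have := hqB j; omega)
    · exact (Nat.coprime_primes hp2 hpp).2 (by omega)
    · exact absurd rfl hij
    · exact (Nat.coprime_primes hp2 hp3).2 (by omega)
    · exact (Nat.coprime_primes hp2 (hq j).1).2 (by have := hqB j; omega)
    · exact (Nat.coprime_primes hp3 hpp).2 (by omega)
    · exact (Nat.coprime_primes hp3 hp2).2 (by omega)
    · exact absurd rfl hij
    · exact (Nat.coprime_primes hp3 (hq j).1).2 (by have := hqB j; omega)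
    · exact (Nat.coprime_primes (hq i).1 hpp).2 (by have := hqB i; omega)
    · exact (Nat.coprime_primes (hq i).1 hp2).2 (by have := hqB i; omega)
    · exact (Nat.coprime_primes (hq i).1 hp3).2 (by have := hqB i; omega)
    · refine (Nat.coprime_primes (hq i).1 (hq j).1).2 (fun h => hij ?_)
      rw [hqinj h]
  let x : ∀ (j : Fin k) (o : Option (Option (Option (Fin k)))), ZMod (Mo p p₂ p₃ q o) := fun j o => match o with
    | none => ((ζ ^ (j : ℕ) : (ZMod p)ˣ) : ZMod p)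
    | some none => r₂ j
    | some (some none) => r₃ j
    | some (some (some i)) => if i = j then -((ρ i : (ZMod (q i))ˣ) : ZMod (q i)) else -1
  choose a ha using fun j => crt (Mo p p₂ p₃ q) hM (x j)
  have hap : ∀ j, ((a j : ℤ) : ZMod p) = ((ζ ^ (j : ℕ) : (ZMod p)ˣ) : ZMod p) := fun j => ha j none
  have ha2 : ∀ j : Fin k, ((a j : ℤ) : ZMod p₂) = r₂ j := fun j => ha j (some none)
  have ha3 : ∀ j : Fin k, ((a j : ℤ) : ZMod p₃) = r₃ j := fun j => ha j (some (some none))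
  have haq : ∀ j i, ((a j : ℤ) : ZMod (q i)) =
      if i = j then -((ρ i : (ZMod (q i))ˣ) : ZMod (q i)) else -1 := fun j i => ha j (some (some (some i)))
  obtain ⟨g₂, R₂, hg2, hd2, hR2⟩ := lift_half n k p₂ hkn _ r₂ hr₂ a ha2
  obtain ⟨g₃, R₃, hg3, hd3, hR3⟩ := lift_half n k p₃ hkn _ r₃ hr₃ a ha3
  have hne : ∀ i j, i ≠ j → ¬ (p : ℤ) ∣ a i - a j := by
    intro i j hij hdvd
    rw [← ZMod.intCast_zmod_eq_zero_iff_dvd, Int.cast_sub, sub_eq_zero, hap, hap] at hdvd
    have h1 := Units.ext hdvd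
    apply hij
    apply Fin.ext
    exact pow_injOn_Iio_orderOf (by rw [Set.mem_Iio, hζ]; exact lt_of_lt_of_le i.2 hkn)
      (by rw [Set.mem_Iio, hζ]; exact lt_of_lt_of_le j.2 hkn) h1
  have hqa : ∀ i, ¬ (q i : ℤ) ∣ a i := by
    intro i hdvd
    rw [← ZMod.intCast_zmod_eq_zero_iff_dvd, haq, if_pos rfl, neg_eq_zero] at hdvd
    exact (ρ i).ne_zero hdvd
  obtain ⟨w, hwp, hwB, hw1⟩ := Nat.exists_prime_gt_modEq_one (k := p * p₂ * p₃)
    (p₃ + ∑ i, q i + ∑ i, 2 * (a i).natAbs) (mul_ne_zero (mul_ne_zero hpp.ne_zero hp2.ne_zero) hp3.ne_zero)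
  have hqw : ∀ i, q i < w := by
    intro i
    have := Finset.single_le_sum (f := q) (fun _ _ => Nat.zero_le _) (Finset.mem_univ i)
    omega
  have haw : ∀ i, 2 * |a i| < w := by
    intro i
    have h1 : 2 * (a i).natAbs ≤ ∑ j, 2 * (a j).natAbs :=
      Finset.single_le_sum (f := fun i => 2 * (a i).natAbs) (fun _ _ => Nat.zero_le _)
        (Finset.mem_univ i)
    have h2 : 2 * (a i).natAbs < w := by omega
    rw [Int.abs_eq_natAbs]
    exact_mod_cast h2
  have ha0 : ∀ i, a i ≠ 0 := by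
    intro i h
    apply hqa i
    rw [h]
    exact dvd_zero _
  have hw1' : (w : ℤ) ≡ 1 [ZMOD ((p * p₂ * p₃ : ℕ) : ℤ)] := by exact_mod_cast (Int.natCast_modEq_iff.2 hw1)
  have hwd : ((p * p₂ * p₃ : ℕ) : ℤ) ∣ 1 - (w : ℤ) := hw1'.dvd
  refine ⟨p, p₂, p₃, w, q, a, g₂, g₃, R₂, R₃, ⟨hpp, hp2, hp3, hwp, fun i => (hq i).1⟩, hqinj,
    ⟨by omega, by omega, by omega, by omega, by omega, by omega⟩,
    fun i => ⟨by have := hqB i; omega, by have := hqB i; omega, by have := hqB i; omega, (hqw i).ne⟩,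
    ⟨?_, ?_, ?_⟩, ?_, hne, ?_, ?_, ?_, hqa, ?_, by omega, hg2, hd2, hg3, hd3, hR2, hR3⟩
  · refine Int.modEq_iff_dvd.2 (dvd_trans ?_ hwd)
    exact Int.natCast_dvd_natCast.2 (Dvd.intro (p₂ * p₃) (by ring))
  · refine Int.modEq_iff_dvd.2 (dvd_trans ?_ hwd)
    exact Int.natCast_dvd_natCast.2 (Dvd.intro (p * p₃) (by ring))
  · refine Int.modEq_iff_dvd.2 (dvd_trans ?_ hwd)
    exact Int.natCast_dvd_natCast.2 (Dvd.intro (p * p₂) (by ring))
  · intro i
    rw [← ZMod.intCast_eq_intCast_iff, Int.cast_pow, hap, ← Units.val_pow_eq_pow_val, ← pow_mul,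
      mul_comm, pow_mul, ← hζ, pow_orderOf_eq_one, one_pow, Units.val_one, Int.cast_one]
  · intro i hdvd
    refine ha0 i (Int.eq_zero_of_abs_lt_dvd hdvd ?_)
    have := haw i
    have := abs_nonneg (a i)
    linarith
  · intro i j hij hdvd
    have h1 : a i - a j ≠ 0 := by
      intro h
      apply hne i j hij
      rw [h]
      exact dvd_zero _
    refine h1 (Int.eq_zero_of_abs_lt_dvd hdvd ?_)
    have h2 := haw i
    have h3 := haw j
    have h4 := abs_sub (a i) (a j)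
    linarith
  · intro i j hij
    rw [← ZMod.intCast_eq_intCast_iff, haq, if_neg hij]
    simp
  · intro i _ ℓ _ hℓ e z hz h
    refine clause (q i) m (hq i).2.2 (ρ i) (hρ i) ℓ hℓ e z hz ?_
    rw [← h]
    congr 1
    rw [Int.cast_neg, haq, if_pos rfl, neg_neg]

end Pool.Agent.D0H89.KC
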